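import Mathlib
import Pool.Agent.Helper18.SphereRes.Final

set_option autoImplicit false

open scoped ENNReal

namespace Pool.Agent.Results.MP_3d9c98_an.RegionFails

open Pool.Agent.Helper18.SphereRes

/-- **The restriction conjecture for spheres over finite fields fails** in every dimension
`d ≥ 4` in each of the cases (1), (2), (4).

1. For every finite field `F` of odd order `q`, every non-trivial additive character, every
   `j ≠ 0`, every `i` with `2i + 2 ≤ d` and all `1 ≤ p, r ≤ 2`,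
   `R_{S_j^{d-1}}(p → r) ≥ (1/5) q^{(d+1)/2 - i/r - (d-i)/p}`.
2. Hence, in case (1) and `d ≥ 4`, an estimate `R(p → r) ≲ 1` with `(1/p, 1/r) ∈ Ω_d(y_0)` requires
   `(d+2)/p + (d-2)/r ≥ d+1`; in cases (2), (4) and `d ≥ 4` it requires
   `(d+3)/p + (d-3)/r ≥ d+1`.
3. The vertex `(1/p, 1/r) = ((d+1)/(2d), y_0)` of `Ω_d(y_0)` violates this in cases (1), (2), (4)
   for every `d ≥ 4`: there the constants tend to infinity with `q`, uniformly in `χ` and `j`.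
4. In particular the assertion of Q1 is false. -/
theorem result :
    (∀ (F : Type) [Field F] [Fintype F] [DecidableEq F], ringChar F ≠ 2 →
      ∀ χ : AddChar F ℂ, χ ≠ 1 → ∀ j : F, j ≠ 0 → ∀ d i : ℕ, 2 * i + 2 ≤ d →
      ∀ p r : ℝ≥0∞, 1 ≤ p → p ≤ 2 → 1 ≤ r → r ≤ 2 →
        ENNReal.ofReal (1 / 5 * (Fintype.card F : ℝ) ^
          (((d : ℝ) + 1) / 2 - i * (r⁻¹).toReal - (d - i) * (p⁻¹).toReal)) ≤
          restrConst χ d j p r) ∧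
    (∀ d : ℕ, 4 ≤ d → Even d → ∀ p r : ℝ≥0∞, 1 ≤ p → 1 ≤ r →
      ((p⁻¹).toReal, (r⁻¹).toReal) ∈ Omega d (Case.one.y0 d) →
      UniformlyBounded Case.one d p r →
        (d : ℝ) + 1 ≤ (d + 2) * (p⁻¹).toReal + (d - 2) * (r⁻¹).toReal) ∧
    (∀ d : ℕ, 4 ≤ d → ∀ c : Case, (c = Case.two ∧ d % 4 = 1) ∨ (c = Case.four ∧ d % 4 = 3) →
      ∀ p r : ℝ≥0∞, 1 ≤ p → 1 ≤ r →
      ((p⁻¹).toReal, (r⁻¹).toReal) ∈ Omega d (c.y0 d) →
      UniformlyBounded c d p r →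
        (d : ℝ) + 1 ≤ (d + 3) * (p⁻¹).toReal + (d - 3) * (r⁻¹).toReal) ∧
    (∀ d : ℕ, 4 ≤ d → ∀ c : Case, (c = Case.one ∧ Even d) ∨ (c = Case.two ∧ d % 4 = 1) ∨
        (c = Case.four ∧ d % 4 = 3) →
      ∃ p r : ℝ≥0∞, 1 ≤ p ∧ 1 ≤ r ∧ (p⁻¹).toReal = ((d : ℝ) + 1) / (2 * d) ∧
        (r⁻¹).toReal = c.y0 d ∧ ((p⁻¹).toReal, (r⁻¹).toReal) ∈ Omega d (c.y0 d) ∧
        Diverges d p r ∧ ¬ UniformlyBounded c d p r) ∧
    ¬ RestrictionConjecture := by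
  have hvert : ∀ d : ℕ, 4 ≤ d → ∀ c : Case, (c = Case.one ∧ Even d) ∨
      (c = Case.two ∧ d % 4 = 1) ∨ (c = Case.four ∧ d % 4 = 3) →
      ∃ p r : ℝ≥0∞, 1 ≤ p ∧ 1 ≤ r ∧ (p⁻¹).toReal = ((d : ℝ) + 1) / (2 * d) ∧
        (r⁻¹).toReal = c.y0 d ∧ ((p⁻¹).toReal, (r⁻¹).toReal) ∈ Omega d (c.y0 d) ∧
        Diverges d p r ∧ ¬ UniformlyBounded c d p r := by
    intro d hd c hc
    obtain ⟨p, r, h1, h2, h3, h4, h5, h6⟩ := vertex hd hc
    exact ⟨p, r, h1, h2, h3, h4, h5, h6, not_uniformlyBounded hc h6⟩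
  refine ⟨?_, ?_, ?_, hvert, ?_⟩
  · intro F _ _ _ hF χ hχ j hj d i hdi p r hp1 hp2 hr1 hr2
    exact le_restrConst hF hχ hj hdi hp1 hp2 hr1 hr2
  · intro d hd he p r hp hr hΩ hb
    obtain ⟨i, hi⟩ : ∃ i, d = 2 * i + 2 := by
      obtain ⟨k, hk⟩ := he
      exact ⟨k - 1, by omega⟩
    have h := necessary (i := i) (Or.inl ⟨rfl, he⟩) hp hr hd (Or.inl ⟨rfl, hi⟩) hΩ hb
    have hi' : (d : ℝ) = 2 * i + 2 := by exact_mod_cast hi
    rw [hi'] at h ⊢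
    linarith
  · intro d hd c hc p r hp hr hΩ hb
    obtain ⟨i, hi⟩ : ∃ i, d = 2 * i + 3 := by
      rcases hc with ⟨_, h⟩ | ⟨_, h⟩
      · exact ⟨(d - 3) / 2, by omega⟩
      · exact ⟨(d - 3) / 2, by omega⟩
    have hne : c ≠ Case.one := by
      rcases hc with ⟨rfl, _⟩ | ⟨rfl, _⟩ <;> intro h <;> cases h
    have h := necessary (i := i) (Or.inr hc) hp hr hd (Or.inr ⟨hne, hi⟩) hΩ hb
    have hi' : (d : ℝ) = 2 * i + 3 := by exact_mod_cast hi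
    rw [hi'] at h ⊢
    linarith
  · intro hconj
    obtain ⟨p, r, h1, h2, _, _, h5, _, h7⟩ := hvert 4 le_rfl Case.one (Or.inl ⟨rfl, by decide⟩)
    exact h7 (hconj 4 (by norm_num) Case.one p r h1 h2 h5)

end Pool.Agent.Results.MP_3d9c98_an.RegionFails
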